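import Pool.Agent.P.MP_1f474f_ag.Main

namespace Pool.Agent.Results.MP_1f474f_ag.Acyclic

open MvPolynomial

/-- S is a numerical semigroup with minimal generators s 0 < ... < s u, P = k[x_0..x_u] is graded
by deg x_l = s l, and P <- P^6 <- P^8 <- P^3 <- 0 is a minimal graded free resolution of
P/I = k[t^S] whose basis elements have degrees a, b, c.  Under (1) and (2) the induced
{1,4,4,1} sequence is a complex and is exact at P^4, P^4 and P. -/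
theorem result {k : Type*} [Field k] (S : AddSubmonoid ℕ) (hS : (S : Set ℕ)ᶜ.Finite)
    (u : ℕ) (s : Fin (u + 1) → ℕ) (hmono : StrictMono s)
    (hgen : Set.range s = {x | x ∈ S ∧ x ≠ 0 ∧ ∀ y ∈ S, ∀ z ∈ S, y + z = x → y = 0 ∨ z = 0})
    (a : Fin 6 → ℤ) (b : Fin 8 → ℤ) (c : Fin 3 → ℤ)
    (φ₁ : Matrix (Fin 1) (Fin 6) (MvPolynomial (Fin (u + 1)) k))
    (φ₂ : Matrix (Fin 6) (Fin 8) (MvPolynomial (Fin (u + 1)) k))
    (φ₃ : Matrix (Fin 8) (Fin 3) (MvPolynomial (Fin (u + 1)) k))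
    (hom₁ : ∀ i j, (φ₁ i j).IsWeightedHomogeneous (fun l => (s l : ℤ)) (a j))
    (hom₂ : ∀ i j, (φ₂ i j).IsWeightedHomogeneous (fun l => (s l : ℤ)) (b j - a i))
    (hom₃ : ∀ i j, (φ₃ i j).IsWeightedHomogeneous (fun l => (s l : ℤ)) (c j - b i))
    (min₁ : ∀ i j, constantCoeff (φ₁ i j) = 0) (min₂ : ∀ i j, constantCoeff (φ₂ i j) = 0)
    (min₃ : ∀ i j, constantCoeff (φ₃ i j) = 0)
    (ex₀ : Ideal.span (Set.range (φ₁ 0)) =
      RingHom.ker (aeval (R := k) fun l => (Polynomial.X : Polynomial k) ^ s l))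
    (ex₁ : Function.Exact φ₂.mulVec φ₁.mulVec) (ex₂ : Function.Exact φ₃.mulVec φ₂.mulVec)
    (ex₃ : Function.Injective φ₃.mulVec)
    (h₁ : ∀ i : Fin 8, 4 ≤ i.val → c 0 - b i < 0)
    (h₂ : ∀ (i : Fin 6) (j : Fin 8), 4 ≤ i.val → j.val < 3 → b j - a i < s 0) :
    Function.Exact
      (φ₂.submatrix (Fin.castLE (by norm_num : 4 ≤ 6)) (Fin.castLE (by norm_num : 4 ≤ 8))).mulVec
      (φ₁.submatrix id (Fin.castLE (by norm_num : 4 ≤ 6))).mulVec ∧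
    Function.Exact
      (φ₃.submatrix (Fin.castLE (by norm_num : 4 ≤ 8)) (Fin.castLE (by norm_num : 1 ≤ 3))).mulVec
      (φ₂.submatrix (Fin.castLE (by norm_num : 4 ≤ 6)) (Fin.castLE (by norm_num : 4 ≤ 8))).mulVec ∧
    Function.Injective
      (φ₃.submatrix (Fin.castLE (by norm_num : 4 ≤ 8)) (Fin.castLE (by norm_num : 1 ≤ 3))).mulVec :=
  Pool.Agent.P.MP_1f474f_ag.final S hS u s hmono hgen a b c φ₁ φ₂ φ₃ hom₁ hom₂ hom₃ min₁ min₂ min₃
    ex₀ ex₁ ex₂ ex₃ h₁ h₂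

end Pool.Agent.Results.MP_1f474f_ag.Acyclic
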